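import Pool.Agent.L7h26.TN.Stm

set_option autoImplicit false

namespace Pool.Agent.L7h27.TN

open Polynomial
open Pool.Agent.L7h26.TN

theorem aux_pos {D c : ℤ} (hc : 0 < c) (u v a b : ℤ) (hu : 0 < u) (huv : u < v) (ha : 0 ≤ a)
    (h1 : a ^ 2 = D * u ^ 2 + c) (h2 : b ^ 2 = D * v ^ 2 + c) : 0 < v * a - u * b := by
  have h3 : (v * a) ^ 2 - (u * b) ^ 2 = c * (v ^ 2 - u ^ 2) := by
    rw [mul_pow, mul_pow, h1, h2]; ring
  have h4 : (u * b) ^ 2 < (v * a) ^ 2 := by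
    have h5 : 0 < c * (v ^ 2 - u ^ 2) := by
      apply mul_pos hc
      nlinarith
    linarith
  have h6 : 0 ≤ v * a := mul_nonneg (by linarith) ha
  have := lt_of_pow_lt_pow_left₀ 2 h6 h4
  linarith

theorem s_GAP : S_GAP := by
  intro D c z1 z2 z3 y1 y2 y3 hD hc hz1 h12 h23 hy1 hy2 hy3 e1 e2 e3
  have k12 := aux_pos hc z1 z2 y1 y2 hz1 h12 hy1 e1 e2
  have k13 := aux_pos hc z1 z3 y1 y3 hz1 (h12.trans h23) hy1 e1 e3
  have k23 := aux_pos hc z2 z3 y2 y3 (hz1.trans h12) h23 hy2 e2 e3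
  have py1 : 0 < y1 := by
    rcases hy1.lt_or_eq with h | h
    · exact h
    · exfalso; rw [← h] at e1; nlinarith [mul_pos hD (pow_pos hz1 2)]
  have py2 : 0 < y2 := by
    rcases hy2.lt_or_eq with h | h
    · exact h
    · exfalso; rw [← h] at e2; nlinarith [mul_pos hD (pow_pos (hz1.trans h12) 2)]
  have hΔ : 0 < (y3 - y2) * (z2 - z1) - (y2 - y1) * (z3 - z2) := by
    have hid : ((y3 - y2) * (z2 - z1) - (y2 - y1) * (z3 - z2)) * ((y1 + y2) * (y2 + y3)) =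
        D * ((z3 - z2) * (z2 - z1)) * ((z2 * y1 - z1 * y2) + (z3 * y1 - z1 * y3) + (z3 * y2 - z2 * y3)) := by
      have h32 : y3 ^ 2 - y2 ^ 2 = D * (z3 ^ 2 - z2 ^ 2) := by rw [e3, e2]; ring
      have h21 : y2 ^ 2 - y1 ^ 2 = D * (z2 ^ 2 - z1 ^ 2) := by rw [e2, e1]; ring
      linear_combination ((z2 - z1) * (y1 + y2)) * h32 - ((z3 - z2) * (y2 + y3)) * h21
    have hR : 0 < D * ((z3 - z2) * (z2 - z1)) *
        ((z2 * y1 - z1 * y2) + (z3 * y1 - z1 * y3) + (z3 * y2 - z2 * y3)) := by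
      apply mul_pos (mul_pos hD (mul_pos (by linarith) (by linarith)))
      linarith
    rw [← hid] at hR
    exact (pos_iff_pos_of_mul_pos hR).2 (mul_pos (by linarith) (by linarith))
  -- the real part
  set δ : ℝ := Real.sqrt (D : ℝ) with hδ
  have hDr : (1 : ℝ) ≤ (D : ℝ) := by exact_mod_cast hD
  have hδ2 : δ ^ 2 = (D : ℝ) := Real.sq_sqrt (by linarith)
  have hδ1 : 1 ≤ δ := Real.one_le_sqrt.2 hDr
  have r12 : (z1 : ℝ) < z2 := by exact_mod_cast h12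
  have r23 : (z2 : ℝ) < z3 := by exact_mod_cast h23
  have rz1 : (0 : ℝ) < z1 := by exact_mod_cast hz1
  have ry1 : (0 : ℝ) ≤ y1 := by exact_mod_cast hy1
  have ry2 : (0 : ℝ) ≤ y2 := by exact_mod_cast hy2
  have ry3 : (0 : ℝ) ≤ y3 := by exact_mod_cast hy3
  have rc : (0 : ℝ) < c := by exact_mod_cast hc
  have q1 : (y1 : ℝ) ^ 2 = D * (z1 : ℝ) ^ 2 + c := by exact_mod_cast e1
  have q2 : (y2 : ℝ) ^ 2 = D * (z2 : ℝ) ^ 2 + c := by exact_mod_cast e2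
  have q3 : (y3 : ℝ) ^ 2 = D * (z3 : ℝ) ^ 2 + c := by exact_mod_cast e3
  have rΔ : (1 : ℝ) ≤ ((y3 : ℝ) - y2) * (z2 - z1) - (y2 - y1) * (z3 - z2) := by
    have : (1 : ℤ) ≤ (y3 - y2) * (z2 - z1) - (y2 - y1) * (z3 - z2) := hΔ
    exact_mod_cast this
  have ge : ∀ (z y : ℝ), 0 < z → 0 ≤ y → y ^ 2 = D * z ^ 2 + c → δ * z < y := by
    intro z y hz hy h
    apply lt_of_pow_lt_pow_left₀ 2 hy
    rw [mul_pow, hδ2, h]; linarith
  have g1 := ge z1 y1 rz1 ry1 q1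
  have g2 := ge z2 y2 (rz1.trans r12) ry2 q2
  have g3 := ge z3 y3 ((rz1.trans r12).trans r23) ry3 q3
  -- e_i * (y_i + δ z_i) = c
  have c1 : ((y1 : ℝ) - δ * z1) * (y1 + δ * z1) = c := by
    have : ((y1 : ℝ) - δ * z1) * (y1 + δ * z1) = (y1 : ℝ) ^ 2 - δ ^ 2 * z1 ^ 2 := by ring
    rw [this, q1, hδ2]; ring
  have c2 : ((y2 : ℝ) - δ * z2) * (y2 + δ * z2) = c := by
    have : ((y2 : ℝ) - δ * z2) * (y2 + δ * z2) = (y2 : ℝ) ^ 2 - δ ^ 2 * z2 ^ 2 := by ring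
    rw [this, q2, hδ2]; ring
  have c3 : ((y3 : ℝ) - δ * z3) * (y3 + δ * z3) = c := by
    have : ((y3 : ℝ) - δ * z3) * (y3 + δ * z3) = (y3 : ℝ) ^ 2 - δ ^ 2 * z3 ^ 2 := by ring
    rw [this, q3, hδ2]; ring
  set E1 : ℝ := (y1 : ℝ) - δ * z1 with hE1
  set E2 : ℝ := (y2 : ℝ) - δ * z2 with hE2
  set E3 : ℝ := (y3 : ℝ) - δ * z3 with hE3
  have pE1 : 0 < E1 := by rw [hE1]; linarith
  have pE2 : 0 < E2 := by rw [hE2]; linarith
  have pE3 : 0 < E3 := by rw [hE3]; linarith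
  have dpos : 0 < δ := by linarith
  have my23 : (y2 : ℝ) < y3 := by
    apply lt_of_pow_lt_pow_left₀ 2 ry3
    rw [q2, q3]
    have : (z2 : ℝ) ^ 2 < z3 ^ 2 := by
      apply pow_lt_pow_left₀ r23 (by linarith) (by norm_num)
    nlinarith
  have my12 : (y1 : ℝ) < y2 := by
    apply lt_of_pow_lt_pow_left₀ 2 ry2
    rw [q1, q2]
    have : (z1 : ℝ) ^ 2 < z2 ^ 2 := by
      apply pow_lt_pow_left₀ r12 (by linarith) (by norm_num)
    nlinarith
  have dec23 : E3 < E2 := by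
    have h1 : (y2 : ℝ) + δ * z2 < y3 + δ * z3 := by nlinarith
    have h2 : 0 < (y2 : ℝ) + δ * z2 := by nlinarith
    by_contra hcon
    push Not at hcon
    have : E2 * (y2 + δ * z2) < E3 * (y3 + δ * z3) := by
      calc E2 * (y2 + δ * z2) < E2 * (y3 + δ * z3) := mul_lt_mul_of_pos_left h1 pE2
        _ ≤ E3 * (y3 + δ * z3) := mul_le_mul_of_nonneg_right hcon (by linarith)
    rw [c2, c3] at this
    exact lt_irrefl _ this
  have hΔ2 : ((y3 : ℝ) - y2) * (z2 - z1) - (y2 - y1) * (z3 - z2) =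
      (E1 - E2) * (z3 - z2) - (E2 - E3) * (z2 - z1) := by
    rw [hE1, hE2, hE3]; ring
  have h1 : 1 ≤ (E1 - E2) * (z3 - z2) := by
    have : 0 < (E2 - E3) * ((z2 : ℝ) - z1) := mul_pos (by linarith) (by linarith)
    linarith
  -- bound of E1 - E2
  have h2 : (E1 - E2) * ((y1 + δ * z1) * (y2 + δ * z2)) = c * ((y2 - y1) + δ * (z2 - z1)) := by
    linear_combination (y2 + δ * z2) * c1 - (y1 + δ * z1) * c2
  have h3 : (y2 : ℝ) - y1 ≤ δ * (z2 - z1) := by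
    have h31 : ((y2 : ℝ) - y1) * (y2 + y1) = D * ((z2 - z1) * (z2 + z1)) := by
      linear_combination q2 - q1
    have h32 : δ * ((z2 : ℝ) + z1) ≤ y2 + y1 := by nlinarith
    by_contra hcon
    push Not at hcon
    have h33 : D * (((z2 : ℝ) - z1) * (z2 + z1)) < ((y2 : ℝ) - y1) * (y2 + y1) := by
      calc D * (((z2 : ℝ) - z1) * (z2 + z1)) = (δ * (z2 - z1)) * (δ * (z2 + z1)) := by
            rw [← hδ2]; ring
        _ < ((y2 : ℝ) - y1) * (δ * (z2 + z1)) := by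
            apply mul_lt_mul_of_pos_right hcon
            apply mul_pos dpos; linarith
        _ ≤ ((y2 : ℝ) - y1) * (y2 + y1) := by
            apply mul_le_mul_of_nonneg_left h32
            linarith
    linarith
  have h4 : 4 * (D : ℝ) * z1 ^ 2 ≤ (y1 + δ * z1) * (y2 + δ * z2) := by
    have a1 : 2 * (δ * (z1 : ℝ)) ≤ y1 + δ * z1 := by linarith
    have a2 : 2 * (δ * (z1 : ℝ)) ≤ y2 + δ * z2 := by nlinarith
    calc 4 * (D : ℝ) * z1 ^ 2 = (2 * (δ * z1)) * (2 * (δ * z1)) := by rw [← hδ2]; ring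
      _ ≤ (y1 + δ * z1) * (y2 + δ * z2) := by
        apply mul_le_mul a1 a2 (by positivity) (by nlinarith)
  have pE12 : 0 < E1 - E2 := by
    by_contra hcon
    push Not at hcon
    have : (E1 - E2) * ((z3 : ℝ) - z2) ≤ 0 := mul_nonpos_of_nonpos_of_nonneg hcon (by linarith)
    linarith
  have h5 : (E1 - E2) * (4 * (D : ℝ) * z1 ^ 2) ≤ c * (2 * (δ * (z2 - z1))) := by
    calc (E1 - E2) * (4 * (D : ℝ) * z1 ^ 2) ≤ (E1 - E2) * ((y1 + δ * z1) * (y2 + δ * z2)) :=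
          mul_le_mul_of_nonneg_left h4 pE12.le
      _ = c * ((y2 - y1) + δ * (z2 - z1)) := h2
      _ ≤ c * (2 * (δ * (z2 - z1))) := by
          apply mul_le_mul_of_nonneg_left _ rc.le
          linarith
  have h6 : (E1 - E2) * (2 * δ * z1 ^ 2) ≤ c * (z2 - z1) := by
    have : (2 * δ) * ((E1 - E2) * (2 * δ * z1 ^ 2)) ≤ (2 * δ) * (c * (z2 - z1)) := by
      calc (2 * δ) * ((E1 - E2) * (2 * δ * z1 ^ 2)) = (E1 - E2) * (4 * δ ^ 2 * z1 ^ 2) := by ring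
        _ = (E1 - E2) * (4 * (D : ℝ) * z1 ^ 2) := by rw [hδ2]
        _ ≤ c * (2 * (δ * (z2 - z1))) := h5
        _ = (2 * δ) * (c * (z2 - z1)) := by ring
    exact le_of_mul_le_mul_left this (by linarith)
  have h7 : (E1 - E2) * (2 * (z1 : ℝ) ^ 2) ≤ c * (z2 - z1) := by
    have : (E1 - E2) * (2 * (z1 : ℝ) ^ 2) ≤ (E1 - E2) * (2 * δ * z1 ^ 2) := by
      apply mul_le_mul_of_nonneg_left _ pE12.le
      have : 0 < (z1 : ℝ) ^ 2 := by positivity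
      nlinarith
    linarith
  have h8 : 2 * (z1 : ℝ) ^ 2 ≤ c * ((z2 - z1) * (z3 - z2)) := by
    have a1 : 2 * (z1 : ℝ) ^ 2 ≤ 2 * (z1 : ℝ) ^ 2 * ((E1 - E2) * (z3 - z2)) := by
      have : 0 < 2 * (z1 : ℝ) ^ 2 := by positivity
      nlinarith
    have a2 : 2 * (z1 : ℝ) ^ 2 * ((E1 - E2) * (z3 - z2)) ≤ (c * (z2 - z1)) * (z3 - z2) := by
      have a3 : 2 * (z1 : ℝ) ^ 2 * ((E1 - E2) * ((z3 : ℝ) - z2)) =
            ((E1 - E2) * (2 * (z1 : ℝ) ^ 2)) * ((z3 : ℝ) - z2) := by ring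
      rw [a3]
      exact mul_le_mul_of_nonneg_right h7 (by linarith)
    linarith
  have h9 : 8 * (z1 : ℝ) ^ 2 ≤ c * (z3 - z1) ^ 2 := by
    have : 4 * (((z2 : ℝ) - z1) * (z3 - z2)) ≤ (z3 - z1) ^ 2 := by
      nlinarith [sq_nonneg (((z2 : ℝ) - z1) - (z3 - z2))]
    have := mul_le_mul_of_nonneg_left this rc.le
    linarith
  exact_mod_cast h9

end Pool.Agent.L7h27.TN
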